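import Pool.Agent.H415R5.PT.MOD

/-! # The monic irreducible polynomials over the field with two elements (helper415) -/

namespace Pool.Agent.H654R5.PT.IRS

open Pool.Agent.NPC Polynomial MOD

lemma toP_injective (u v : List Bool) (hl : u.length = v.length) (h : toP u = toP v) : u = v := by
  apply List.ext_getElem hl
  intro i h1 h2
  have h3 := congrArg (fun P => P.coeff i) h
  simp only [coeff_toP] at h3
  rw [List.getD_eq_getElem?_getD, List.getD_eq_getElem?_getD, List.getElem?_eq_getElem h1,
    List.getElem?_eq_getElem h2, Option.getD_some, Option.getD_some] at h3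
  cases h4 : u[i] <;> cases h5 : v[i] <;> simp_all

lemma exists_toP (P : (ZMod 2)[X]) (hP : P.Monic) : ∃ k : List Bool, k.length = P.natDegree ∧
    toP (k ++ [true]) = P := by
  refine ⟨(List.range P.natDegree).map (fun i => decide (P.coeff i = 1)), by simp, ?_⟩
  have hz : ∀ a : ZMod 2, a = 0 ∨ a = 1 := by decide
  ext n
  rw [coeff_toP]
  rcases lt_trichotomy n P.natDegree with h | h | h
  · rw [List.getD_eq_getElem?_getD, List.getElem?_append_left (by simpa using h),
      List.getElem?_map, List.getElem?_range h]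
    simp only [Option.map_some, Option.getD_some, decide_eq_true_eq]
    split_ifs with h1
    · exact h1.symm
    · rcases hz (P.coeff n) with h2 | h2
      · exact h2.symm
      · exact absurd h2 h1
  · rw [List.getD_eq_getElem?_getD, List.getElem?_append_right (by simp [h])]
    simp only [List.length_map, List.length_range, h, Nat.sub_self, List.getElem?_cons_zero,
      Option.getD_some, if_true]
    exact hP.symm
  · rw [List.getD_eq_getElem?_getD, List.getElem?_append_right (by simp; omega),
      List.getElem?_eq_none (by simp; omega), coeff_eq_zero_of_natDegree_lt h]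
    simp

/-- members of the list of monic polynomials -/
lemma mem_monics (hS : S_STR) (d : ℕ) (h : List Bool) :
    h ∈ monics d ↔ ∃ k, k.length = d ∧ h = k ++ [true] := by
  unfold monics
  rw [List.mem_map]
  constructor
  · rintro ⟨k, h1, h2⟩
    exact ⟨k, (hS.1 d k).1 h1, h2.symm⟩
  · rintro ⟨k, h1, h2⟩
    exact ⟨k, (hS.1 d k).2 h1, h2.symm⟩

lemma irrT_iff (hS : S_STR) (hM : S_MOD) (k : List Bool) (hk : 1 ≤ k.length) :
    irrT (k ++ [true]) = true ↔ Irreducible (toP (k ++ [true])) := by
  obtain ⟨hmon, hdeg⟩ := toP_monic k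
  have hp1 : toP (k ++ [true]) ≠ 1 := by
    intro h
    rw [h, natDegree_one] at hdeg
    omega
  have hl : (k ++ [true]).length - 1 = k.length := by simp
  have key : ∀ l : List Bool, pmod (l ++ [true]) (k ++ [true]) = List.replicate l.length false ↔
      toP (l ++ [true]) ∣ toP (k ++ [true]) := by
    intro l
    obtain ⟨h1, h2, _, h4⟩ := hM l (k ++ [true])
    rw [← modByMonic_eq_zero_iff_dvd h2, ← h4]
    constructor
    · intro h
      rw [h, toP_replicate]
    · intro h
      apply toP_injective _ _ (by rw [h1, List.length_replicate])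
      rw [h, toP_replicate]
  unfold irrT
  rw [hl, List.all_eq_true]
  constructor
  · intro h
    rw [hmon.irreducible_iff_lt_natDegree_lt hp1]
    intro q hq hqd hdvd
    rw [Finset.mem_Ioc, hdeg] at hqd
    obtain ⟨l, hl1, hl2⟩ := exists_toP q hq
    have h1 := h l.length (by rw [List.mem_range, hl1]; omega)
    rw [Bool.or_eq_true, beq_iff_eq, List.all_eq_true] at h1
    rcases h1 with h1 | h1
    · omega
    · have h2 := h1 (l ++ [true]) ((mem_monics hS _ _).2 ⟨l, rfl, rfl⟩)
      rw [decide_eq_true_eq] at h2
      exact h2 ((key l).2 (by rw [hl2]; exact hdvd))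
  · intro hirr d hd
    rw [List.mem_range] at hd
    rw [Bool.or_eq_true, beq_iff_eq, List.all_eq_true]
    by_cases hd0 : d = 0
    · exact Or.inl hd0
    · refine Or.inr ?_
      intro m hm
      obtain ⟨l, hl1, hl2⟩ := (mem_monics hS _ _).1 hm
      rw [decide_eq_true_eq, hl2, ← hl1]
      intro h
      obtain ⟨q, hq⟩ := (key l).1 h
      obtain ⟨hlm, hld⟩ := toP_monic l
      have hq0 : q ≠ 0 := by
        intro h0
        rw [h0, mul_zero] at hq
        exact hmon.ne_zero hq
      have hdd : k.length = l.length + q.natDegree := by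
        rw [← hdeg, hq, natDegree_mul hlm.ne_zero hq0, hld]
      rcases hirr.isUnit_or_isUnit hq with h1 | h1
      · have := natDegree_eq_zero_of_isUnit h1
        omega
      · have := natDegree_eq_zero_of_isUnit h1
        omega

lemma mem_irrs (hS : S_STR) (c : ℕ) (h : List Bool) :
    h ∈ irrs c ↔ ∃ k, 1 ≤ k.length ∧ k.length ≤ c ∧ h = k ++ [true] ∧ irrT h = true := by
  unfold irrs
  rw [List.mem_filter, List.mem_flatMap]
  constructor
  · rintro ⟨⟨d, h1, h2⟩, h3⟩
    split_ifs at h2 with h4
    · simp at h2
    · obtain ⟨k, h5, h6⟩ := (mem_monics hS _ _).1 h2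
      rw [List.mem_range] at h1
      exact ⟨k, by omega, by omega, h6, h3⟩
  · rintro ⟨k, h1, h2, h3, h4⟩
    refine ⟨⟨k.length, List.mem_range.2 (by omega), ?_⟩, h4⟩
    rw [if_neg (by omega)]
    exact (mem_monics hS _ _).2 ⟨k, rfl, h3⟩

lemma nodup_irrs (hS : S_STR) (c : ℕ) : (irrs c).Nodup := by
  unfold irrs
  apply List.Nodup.filter
  rw [List.nodup_flatMap]
  constructor
  · intro d _
    split_ifs
    · exact List.nodup_nil
    · unfold monics
      refine List.Nodup.map ?_ (hS.2.1 d)
      intro a b hab
      exact List.append_cancel_right hab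
  · have h1 : (List.range (c + 1)).Pairwise (· ≠ ·) := List.nodup_range
    refine h1.imp ?_
    intro a b hab
    rw [Function.onFun, List.disjoint_left]
    intro x hxa hxb
    split_ifs at hxa hxb
    · simp at hxa
    · simp at hxa
    · simp at hxb
    · obtain ⟨k, hk, hk'⟩ := (mem_monics hS _ _).1 hxa
      obtain ⟨l, hl, hl'⟩ := (mem_monics hS _ _).1 hxb
      apply hab
      have h2 : (k ++ [true]).length = (l ++ [true]).length := by rw [← hk', ← hl']
      simp at h2
      omega

theorem IRS_proof (hS : S_STR) (hM : S_MOD) : S_IRS := by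
  intro c
  refine ⟨?_, nodup_irrs hS c, ?_⟩
  · intro h hh
    obtain ⟨k, h1, h2, h3, h4⟩ := (mem_irrs hS c h).1 hh
    refine ⟨⟨k, h3⟩, ?_, ?_, ?_⟩
    · rw [h3]; simp; omega
    · rw [h3]; simp; omega
    · rw [h3] at h4 ⊢
      exact (irrT_iff hS hM k h1).1 h4
  · intro P hP hirr hdeg
    obtain ⟨k, hk, hk'⟩ := exists_toP P hP
    have h1 : 1 ≤ k.length := by
      rw [hk]
      have := hirr.natDegree_pos
      omega
    refine ⟨k ++ [true], (mem_irrs hS c _).2 ⟨k, h1, by omega, rfl, ?_⟩, hk'⟩
    rw [irrT_iff hS hM k h1, hk']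
    exact hirr

end Pool.Agent.H654R5.PT.IRS
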