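import Pool.Agent.H654R5.PT.Stm

/-! # Division of polynomials over the field with two elements given as lists (helper415) -/

namespace Pool.Agent.H654R5.PT.MOD

open Pool.Agent.NPC Polynomial

/-- coefficients of the polynomial of a list -/
lemma coeff_toP (l : List Bool) (n : ℕ) :
    (toP l).coeff n = if l.getD n false = true then 1 else 0 := by
  unfold toP
  rw [finsetSum_coeff]
  by_cases hn : n < l.length
  · rw [Finset.sum_eq_single n]
    · split_ifs
      · simp
      · simp
    · intro i _ hi
      split_ifs
      · rw [coeff_X_pow, if_neg (fun h => hi h.symm)]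
      · simp
    · intro h
      exact absurd (Finset.mem_range.2 hn) h
  · have h1 : l.getD n false = false := by
      rw [List.getD_eq_getElem?_getD, List.getElem?_eq_none (by omega)]
      rfl
    rw [h1, if_neg (by simp)]
    apply Finset.sum_eq_zero
    intro i hi
    rw [Finset.mem_range] at hi
    split_ifs
    · rw [coeff_X_pow, if_neg (by omega)]
    · simp

lemma toP_nil : toP [] = 0 := by
  simp [toP]

lemma toP_cons (b : Bool) (l : List Bool) :
    toP (b :: l) = (if b = true then 1 else 0) + X * toP l := by
  ext n
  rw [coeff_toP, coeff_add]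
  cases n with
  | zero =>
    rw [mul_coeff_zero]
    cases b <;> simp
  | succ n =>
    rw [coeff_X_mul, coeff_toP]
    cases b <;> simp [coeff_one]

lemma toP_replicate (n : ℕ) : toP (List.replicate n false) = 0 := by
  ext m
  rw [coeff_toP, coeff_zero, if_neg]
  rw [List.getD_eq_getElem?_getD, List.getElem?_replicate]
  split_ifs <;> simp

lemma degree_toP (l : List Bool) : (toP l).degree < l.length := by
  rw [degree_lt_iff_coeff_zero]
  intro m hm
  rw [coeff_toP, if_neg]
  rw [List.getD_eq_getElem?_getD, List.getElem?_eq_none (by omega)]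
  simp

lemma toP_append (l : List Bool) (b : Bool) :
    toP (l ++ [b]) = toP l + if b = true then X ^ l.length else 0 := by
  induction l with
  | nil => simp [toP_cons, toP_nil]
  | cons a l ih =>
    rw [List.cons_append, toP_cons, ih, toP_cons, List.length_cons]
    split_ifs <;> ring

lemma toP_xorL : ∀ (u v : List Bool), u.length = v.length → toP (xorL u v) = toP u + toP v
  | [], [], _ => by simp [xorL, toP_nil]
  | [], _ :: _, h => by simp at h
  | _ :: _, [], h => by simp at h
  | a :: u, b :: v, h => by
    have ih := toP_xorL u v (by simpa using h)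
    have h1 : xorL (a :: u) (b :: v) = (xor a b) :: xorL u v := rfl
    rw [h1, toP_cons, toP_cons, toP_cons, ih]
    have h2 : (1 : (ZMod 2)[X]) + 1 = 0 := by
      have : (2 : (ZMod 2)[X]) = 0 := CharTwo.two_eq_zero
      rw [one_add_one_eq_two]; exact this
    cases a <;> cases b <;> simp <;> ring_nf
    · linear_combination (-1 : (ZMod 2)[X]) * h2

lemma xorL_length (u v : List Bool) (h : u.length = v.length) : (xorL u v).length = u.length := by
  unfold xorL
  rw [List.length_zipWith]
  omega

lemma getLastD_eq (l : List Bool) (d : ℕ) (h : l.length = d + 1) :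
    l = l.take d ++ [l.getLastD false] := by
  have hne : l ≠ [] := by
    intro h0
    rw [h0] at h
    simp at h
  have h1 := List.dropLast_append_getLast hne
  rw [List.dropLast_eq_take, h] at h1
  have h2 : l.getLastD false = l.getLast hne := by
    rw [List.getLastD_eq_getLast?, List.getLast?_eq_some_getLast hne]
    rfl
  rw [h2]
  exact h1.symm

lemma toP_take (l : List Bool) (d : ℕ) (h : l.length = d + 1) :
    toP l = toP (l.take d) + if l.getLastD false = true then X ^ d else 0 := by
  conv_lhs => rw [getLastD_eq l d h]
  rw [toP_append, List.length_take, h]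
  simp

lemma getLastD_append (k : List Bool) (b : Bool) : (k ++ [b]).getLastD false = b := by
  rw [List.getLastD_eq_getLast?]
  simp

lemma getLastD_xorL (u v : List Bool) (b c : Bool) (h : u.length = v.length) :
    (xorL (u ++ [b]) (v ++ [c])).getLastD false = xor b c := by
  unfold xorL
  rw [List.zipWith_append h]
  exact getLastD_append _ _

lemma remStep_spec (k acc : List Bool) (b : Bool) (hacc : acc.length = k.length) :
    (remStep (k ++ [true]) b acc).length = k.length ∧
    ∃ q : (ZMod 2)[X], toP (remStep (k ++ [true]) b acc) + toP (k ++ [true]) * q =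
      (if b = true then 1 else 0) + X * toP acc := by
  have hl : (b :: acc).length = k.length + 1 := by rw [List.length_cons, hacc]
  have hk : (k ++ [true]).length = k.length + 1 := by simp
  have hk1 : (k ++ [true]).length - 1 = k.length := by simp
  unfold remStep
  rw [hk1]
  by_cases h : (b :: acc).getLastD false = true
  · rw [if_pos h]
    have hx : (xorL (b :: acc) (k ++ [true])).length = k.length + 1 := by
      rw [xorL_length _ _ (by rw [hl, hk]), hl]
    constructor
    · rw [List.length_take, hx]; omega
    · refine ⟨1, ?_⟩
      have h1 := toP_take (xorL (b :: acc) (k ++ [true])) k.length hx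
      have h2 : (xorL (b :: acc) (k ++ [true])).getLastD false = false := by
        rw [getLastD_eq (b :: acc) k.length hl, h, getLastD_xorL]
        · rfl
        · rw [List.length_take, hl]; omega
      rw [h2, if_neg (by simp), add_zero] at h1
      rw [← h1, toP_xorL _ _ (by rw [hl, hk]), toP_cons, mul_one, add_assoc]
      have h3 : toP (k ++ [true]) + toP (k ++ [true]) = 0 := CharTwo.add_self_eq_zero _
      rw [h3, add_zero]
  · rw [if_neg h]
    constructor
    · rw [List.length_take, hl]; omega
    · refine ⟨0, ?_⟩
      have h1 := toP_take (b :: acc) k.length hl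
      rw [if_neg h, add_zero] at h1
      rw [mul_zero, add_zero, ← h1, toP_cons]

lemma pmod_spec (k : List Bool) : ∀ f : List Bool,
    (pmod (k ++ [true]) f).length = k.length ∧
    ∃ q : (ZMod 2)[X], toP (pmod (k ++ [true]) f) + toP (k ++ [true]) * q = toP f
  | [] => by
    constructor
    · simp [pmod]
    · refine ⟨0, ?_⟩
      have h : pmod (k ++ [true]) [] = List.replicate k.length false := by simp [pmod]
      rw [h, toP_replicate, toP_nil]
      ring
  | b :: f => by
    obtain ⟨h1, q, h2⟩ := pmod_spec k f
    have h3 : pmod (k ++ [true]) (b :: f) = remStep (k ++ [true]) b (pmod (k ++ [true]) f) := rfl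
    obtain ⟨h4, q', h5⟩ := remStep_spec k (pmod (k ++ [true]) f) b h1
    rw [h3]
    refine ⟨h4, q' + X * q, ?_⟩
    rw [toP_cons, ← h2]
    linear_combination h5

lemma toP_monic (k : List Bool) : (toP (k ++ [true])).Monic ∧
    (toP (k ++ [true])).natDegree = k.length := by
  have h1 : toP (k ++ [true]) = X ^ k.length + toP k := by
    rw [toP_append, if_pos rfl, add_comm]
  rw [h1]
  have h2 := degree_toP k
  refine ⟨monic_X_pow_add h2, ?_⟩
  rw [natDegree_add_eq_left_of_degree_lt]
  · exact natDegree_X_pow _
  · rw [degree_X_pow]; exact h2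

theorem MOD_proof : S_MOD := by
  intro k f
  obtain ⟨h1, q, h2⟩ := pmod_spec k f
  obtain ⟨h3, h4⟩ := toP_monic k
  refine ⟨h1, h3, h4, ?_⟩
  have h5 := degree_toP (pmod (k ++ [true]) f)
  rw [h1] at h5
  have h6 : (toP (k ++ [true])).degree = (k.length : WithBot ℕ) := by
    rw [degree_eq_natDegree h3.ne_zero, h4]
  exact (div_modByMonic_unique q _ h3 ⟨h2, by rw [h6]; exact h5⟩).2.symm

end Pool.Agent.H654R5.PT.MOD
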